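import Pool.Agent.X141.LZ.Est

/-!
# MP_6a29fd_al, Q1: yes

There are a finitely generated group `G`, a finite symmetric generating set `S` and a word `w` such
that for lazy random walks the law probabilities `p_n(G, S, w)` do not converge.
-/

set_option autoImplicit false

namespace Pool.Agent.Results.MP_6a29fd_al.LazyNoLimit

open Filter Topology Pool.Agent.X141.LZ Pool.Agent.X141.LZ.El LaurentPolynomial

/-! ### The probabilities as functions of the set `D` -/

open Classical in
/-- The indicator of the event that the word is trivial. -/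
noncomputable def ind (D : ℕ → Bool) (x y : LL) : ℝ :=
  if ∀ k, D k = true → ob k (41 * x.z) (hh x y) = 0 then 1 else 0

/-- The law probability. -/
noncomputable def P (D : ℕ → Bool) (n : ℕ) : ℝ :=
  EE (la n) (fun x => EE (la n) (fun y => ind D x y))

theorem ind_nonneg (D : ℕ → Bool) (x y : LL) : 0 ≤ ind D x y := by
  unfold ind
  split_ifs <;> norm_num

theorem ind_le_one (D : ℕ → Bool) (x y : LL) : ind D x y ≤ 1 := by
  unfold ind
  split_ifs <;> norm_num

theorem ob_large (s : ℤ) (h : R) : ∃ B : ℕ, ∀ k, B ≤ k → ob k s h = 0 := by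
  obtain ⟨B, hB0, hB⟩ := I_exists ((T s + T (-s)) * (invert h * h))
  refine ⟨B.toNat, fun k hk => ?_⟩
  unfold ob cnt
  have h2 : Lf (fun r => if (k : ℤ) < r then (1 : ZMod 2) else 0)
      ((T s + T (-s)) * (invert h * h)) = Lf (fun _ => 0) ((T s + T (-s)) * (invert h * h)) := by
    refine Lf_I (fun r hr1 hr2 => ?_) hB
    rw [if_neg (by omega)]
  rw [h2, Lf_zero]

theorem cont_of_fin (f : (ℕ → Bool) → ℝ) (B : ℕ)
    (h : ∀ D D' : ℕ → Bool, (∀ k < B, D k = D' k) → f D = f D') : Continuous f := by
  let rs : (ℕ → Bool) → (Fin B → Bool) := fun D k => D k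
  let ex : (Fin B → Bool) → (ℕ → Bool) := fun e k => if hk : k < B then e ⟨k, hk⟩ else false
  have e : f = (fun e => f (ex e)) ∘ rs := by
    funext D
    apply h
    intro k hk
    simp only [ex, rs, hk, dif_pos]
  rw [e]
  apply Continuous.comp continuous_of_discreteTopology
  exact continuous_pi fun k => continuous_apply _

theorem ind_cont (x y : LL) : Continuous (fun D => ind D x y) := by
  obtain ⟨B, hB⟩ := ob_large (41 * x.z) (hh x y)
  refine cont_of_fin _ B fun D D' hD => ?_
  have key : ∀ D D' : ℕ → Bool, (∀ k < B, D k = D' k) →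
      (∀ k, D k = true → ob k (41 * x.z) (hh x y) = 0) →
      (∀ k, D' k = true → ob k (41 * x.z) (hh x y) = 0) := by
    intro D D' hD h k hk
    by_cases hkB : k < B
    · exact h k (by rw [hD k hkB]; exact hk)
    · exact hB k (not_lt.1 hkB)
  unfold ind
  by_cases h : ∀ k, D k = true → ob k (41 * x.z) (hh x y) = 0
  · rw [if_pos h, if_pos (key D D' hD h)]
  · rw [if_neg h, if_neg (fun h' => h (key D' D (fun k hk => (hD k hk).symm) h'))]

theorem P_cont (n : ℕ) : Continuous (fun D => P D n) := by
  unfold P EE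
  refine continuous_finsetSum _ fun x _ => continuous_const.mul ?_
  exact continuous_finsetSum _ fun y _ => continuous_const.mul (ind_cont x y)

theorem P_drop (D : ℕ → Bool) (M d n : ℕ) (hD : ∀ k, D k = true → k ≤ M) :
    (open Classical in EE (la n) (fun x => EE (la n) (fun y =>
      if (∀ k ≤ M, ob k (41 * x.z) (hh x y) = 0) ∧ ob d (41 * x.z) (hh x y) ≠ 0
        then (1 : ℝ) else 0))) ≤ P D n - P (Function.update D d true) n := by
  classical
  unfold P
  rw [← EE_sub_fun]
  refine EE_mono _ (la_nonneg n) _ _ fun x => ?_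
  rw [← EE_sub_fun]
  refine EE_mono _ (la_nonneg n) _ _ fun y => ?_
  by_cases h : (∀ k ≤ M, ob k (41 * x.z) (hh x y) = 0) ∧ ob d (41 * x.z) (hh x y) ≠ 0
  · rw [if_pos h]
    have h1 : ind D x y = 1 := by
      unfold ind
      rw [if_pos fun k hk => h.1 k (hD k hk)]
    have h2 : ind (Function.update D d true) x y = 0 := by
      unfold ind
      rw [if_neg]
      intro hc
      exact h.2 (hc d (Function.update_self _ _ _))
    rw [h1, h2, sub_zero]
  · rw [if_neg h, sub_nonneg]
    unfold ind
    by_cases h2 : ∀ k, (Function.update D d true) k = true → ob k (41 * x.z) (hh x y) = 0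
    · have h3 : ∀ k, D k = true → ob k (41 * x.z) (hh x y) = 0 := by
        intro k hk
        apply h2
        by_cases hkd : k = d
        · rw [hkd, Function.update_self]
        · rw [Function.update_of_ne hkd]
          exact hk
      rw [if_pos h2, if_pos h3]
    · rw [if_neg h2]
      split_ifs <;> norm_num

/-- For some `D` the probabilities do not converge. -/
theorem exists_D : ∃ D : ℕ → Bool, ¬ ∃ L, Tendsto (fun n => P D n) atTop (𝓝 L) := by
  by_contra hcon
  push Not at hcon
  have hdel := del_pos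
  set ε : ℝ := del / 4 with hε
  have hε0 : 0 < ε := by positivity
  let F : ℕ → Set (ℕ → Bool) := fun N => {D | ∀ n m, N ≤ n → N ≤ m → |P D n - P D m| ≤ ε}
  have hFc : ∀ N, IsClosed (F N) := by
    intro N
    have : F N = ⋂ n, ⋂ m, ⋂ (_ : N ≤ n), ⋂ (_ : N ≤ m), {D | |P D n - P D m| ≤ ε} := by
      ext D
      simp [F]
    rw [this]
    refine isClosed_iInter fun n => isClosed_iInter fun m => isClosed_iInter fun _ =>
      isClosed_iInter fun _ => ?_
    exact isClosed_le ((P_cont n).sub (P_cont m)).abs continuous_const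
  have hFu : ⋃ N, F N = Set.univ := by
    rw [Set.eq_univ_iff_forall]
    intro D
    obtain ⟨L, hL⟩ := hcon D
    have hC := hL.cauchySeq
    rw [Metric.cauchySeq_iff] at hC
    obtain ⟨N, hN⟩ := hC ε hε0
    rw [Set.mem_iUnion]
    exact ⟨N, fun n m hn hm => (hN n hn m hm).le⟩
  obtain ⟨N, D0, hD0⟩ := nonempty_interior_of_iUnion_of_closed hFc hFu
  have hop : IsOpen (interior (F N)) := isOpen_interior
  rw [isOpen_pi_iff] at hop
  obtain ⟨J, u, hu, hsub⟩ := hop D0 hD0
  set M : ℕ := J.sup id with hM
  have hJ : ∀ k ∈ J, k ≤ M := fun k hk => Finset.le_sup (f := id) hk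
  set D1 : ℕ → Bool := fun k => if k ≤ M then D0 k else false with hD1
  have hD1M : ∀ k, D1 k = true → k ≤ M := by
    intro k hk
    by_contra hc
    simp only [hD1, hc, if_false] at hk
    exact Bool.false_ne_true hk
  have mem : ∀ D : ℕ → Bool, (∀ k ≤ M, D k = D0 k) → D ∈ F N := by
    intro D hD
    apply interior_subset
    apply hsub
    intro k hk
    rw [hD k (hJ k hk)]
    exact (hu k hk).2
  have hD1F : D1 ∈ F N := by
    apply mem
    intro k hk
    simp only [hD1, hk, if_true]
  have htend : Tendsto (fun d => Function.update D1 d true) atTop (𝓝 D1) := by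
    rw [tendsto_pi_nhds]
    intro k
    refine tendsto_const_nhds.congr' ?_
    filter_upwards [eventually_gt_atTop k] with d hd
    rw [Function.update_of_ne (by omega)]
  have htP : Tendsto (fun d => P (Function.update D1 d true) N) atTop (𝓝 (P D1 N)) :=
    ((P_cont N).tendsto D1).comp htend
  rw [Metric.tendsto_atTop] at htP
  obtain ⟨d0, hd0⟩ := htP ε hε0
  obtain ⟨d, hd, n, hn, hkey⟩ := key M (max (M + 1) (max d0 N))
  have hdM : M < d := by
    have := le_max_left (M + 1) (max d0 N)
    omega
  have hdd0 : d0 ≤ d := by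
    have h1 := le_max_right (M + 1) (max d0 N)
    have h2 := le_max_left d0 N
    omega
  have hnN : N ≤ n := by
    have h1 := le_max_right (M + 1) (max d0 N)
    have h2 := le_max_right d0 N
    omega
  have hD2F : Function.update D1 d true ∈ F N := by
    apply mem
    intro k hk
    rw [Function.update_of_ne (by omega)]
    simp only [hD1, hk, if_true]
  have hdrop := P_drop D1 M d n hD1M
  have h1 := hD1F n N hnN le_rfl
  have h2 := hD2F n N hnN le_rfl
  have h3 := hd0 d hdd0
  rw [Real.dist_eq] at h3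
  have h4 := hkey.trans hdrop
  rw [abs_le] at h1 h2
  rw [abs_lt] at h3
  linarith [h1.1, h1.2, h2.1, h2.2, h3.1, h3.2]

/-! ### The groups -/

/-- The group generated by `st p`. -/
noncomputable abbrev GD (D : ℕ → Bool) : Subgroup (El D) := Subgroup.closure (Set.range (st (D := D)))

/-- The generators. -/
noncomputable def stG (D : ℕ → Bool) (p : Ix) : GD D := ⟨st p, Subgroup.subset_closure ⟨p, rfl⟩⟩

theorem stG_inj (D : ℕ → Bool) : Function.Injective (stG D) := by
  intro p q h
  exact st_inj (congrArg Subtype.val h)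

/-- The generating set. -/
noncomputable def SS (D : ℕ → Bool) : Finset (GD D) := Finset.univ.map ⟨stG D, stG_inj D⟩

theorem SS_symm (D : ℕ → Bool) (s : GD D) (hs : s ∈ SS D) : s⁻¹ ∈ SS D := by
  unfold SS at *
  rw [Finset.mem_map] at *
  obtain ⟨p, -, rfl⟩ := hs
  refine ⟨(p.2.2, -p.2.1, p.1), Finset.mem_univ _, ?_⟩
  apply Subtype.ext
  exact (st_inv p).symm

theorem SS_card (D : ℕ → Bool) : (SS D).card = 8 := by
  unfold SS
  rw [Finset.card_map, Finset.card_univ, card_Ix]

theorem SS_closure (D : ℕ → Bool) : Subgroup.closure (SS D : Set (GD D)) = ⊤ := by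
  have h : (SS D : Set (GD D)) = (Subtype.val : GD D → El D) ⁻¹' (Set.range (st (D := D))) := by
    ext s
    unfold SS
    rw [Finset.coe_map, Finset.coe_univ, Set.image_univ]
    constructor
    · rintro ⟨p, rfl⟩
      exact ⟨p, rfl⟩
    · rintro ⟨p, hp⟩
      exact ⟨p, Subtype.ext hp⟩
  rw [h]
  exact Subgroup.closure_closure_coe_preimage

theorem EE_lazy (D : ℕ → Bool) (F : GD D → ℝ) :
    EE (lazyLaw (SS D)) F = 1 / 2 * F 1 + ∑ p : Ix, 1 / 16 * F (stG D p) := by
  unfold lazyLaw
  rw [EE_add, EE_single, EE_sum, SS_card]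
  congr 1
  unfold SS
  rw [Finset.sum_map]
  refine Finset.sum_congr rfl fun p _ => ?_
  rw [EE_single]
  norm_num

/-- The projection to the lamplighter group. -/
noncomputable def prj (D : ℕ → Bool) : GD D →* LL where
  toFun x := ⟨0, x.1.f, x.1.z⟩
  map_one' := rfl
  map_mul' x y := by
    apply El.ext
    · show (0 : ℕ → ZMod 2) = 0 + 0 + be (fun _ => false) x.1.f (T x.1.z * y.1.f)
      rw [be_false]
      simp
    · rfl
    · rfl

theorem prj_st (D : ℕ → Bool) (p : Ix) : prj D (stG D p) = st p := by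
  apply El.ext
  · exact (st_c_false p).symm
  · show (st (D := D) p).f = _
    rw [st_f, st_f]
  · show (st (D := D) p).z = _
    rw [st_z, st_z]

theorem EE_prj (D : ℕ → Bool) (n : ℕ) (F : LL → ℝ) :
    EE (convPow (lazyLaw (SS D)) n) (fun x => F (prj D x)) = EE (la n) F := by
  refine EE_map (prj D) (lazyLaw (SS D)) muL ?_ n F
  intro F
  rw [EE_lazy, EE_muL, map_one]
  simp only [prj_st]

theorem coe_br {D : ℕ → Bool} (x y : GD D) : ((br x y : GD D) : El D) = br (x : El D) (y : El D) :=
  rfl

theorem coe_word {D : ℕ → Bool} (x y : GD D) :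
    ((br (br x y) (x ^ 41 * br x y * (x ^ 41)⁻¹) : GD D) : El D) =
      br (br (x : El D) y) ((x : El D) ^ 41 * br (x : El D) y * ((x : El D) ^ 41)⁻¹) := by
  rw [coe_br, coe_br, Subgroup.coe_mul, Subgroup.coe_mul, Subgroup.coe_inv, SubmonoidClass.coe_pow,
    coe_br]

theorem word_iff {D : ℕ → Bool} (x y : GD D) : FreeGroup.lift ![x, y] wd = 1 ↔
    ∀ k, D k = true → ob k (41 * (prj D x).z) (hh (prj D x) (prj D y)) = 0 := by
  have h1 := wd_iff (x : El D) (y : El D)
  have h2 : (x : El D).z = (prj D x).z := rfl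
  have h3 : hh (x : El D) (y : El D) = hh (prj D x) (prj D y) := rfl
  rw [h2, h3] at h1
  rw [← h1, lift_wd, Subtype.ext_iff]
  have h4 : (![x, y] : Fin 2 → GD D) 0 = x := rfl
  have h5 : (![x, y] : Fin 2 → GD D) 1 = y := rfl
  rw [h4, h5, coe_word]
  rfl

theorem lawProb_eq (D : ℕ → Bool) (n : ℕ) : lawProb (SS D) wd n = P D n := by
  rw [lawProb_two]
  unfold P
  rw [← EE_prj D n (fun x => EE (la n) (fun y => ind D x y))]
  congr 1
  funext x
  rw [← EE_prj D n (fun y => ind D (prj D x) y)]
  congr 1
  funext y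
  have h1 := word_iff x y
  unfold ind
  by_cases hc : FreeGroup.lift ![x, y] wd = 1
  · rw [if_pos hc, if_pos (h1.1 hc)]
  · rw [if_neg hc, if_neg (fun h => hc (h1.2 h))]

theorem P_bounds (D : ℕ → Bool) (n : ℕ) : 0 ≤ P D n ∧ P D n ≤ 1 := by
  unfold P
  constructor
  · have h0 : EE (la n) (fun _ => (0 : ℝ)) = 0 := EE_const _ (la_mass n) 0
    have h1 : ∀ x : LL, 0 ≤ EE (la n) (fun y => ind D x y) := by
      intro x
      have := EE_mono (la n) (la_nonneg n) (fun _ => 0) (fun y => ind D x y)
        fun y => ind_nonneg D x y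
      rwa [h0] at this
    have := EE_mono (la n) (la_nonneg n) (fun _ => 0) _ h1
    rwa [h0] at this
  · have h0 : EE (la n) (fun _ => (1 : ℝ)) = 1 := la_mass n
    have h1 : ∀ x : LL, EE (la n) (fun y => ind D x y) ≤ 1 := by
      intro x
      have := EE_mono (la n) (la_nonneg n) (fun y => ind D x y) (fun _ => 1)
        fun y => ind_le_one D x y
      rwa [h0] at this
    have := EE_mono (la n) (la_nonneg n) _ (fun _ => 1) h1
    rwa [h0] at this

/-- **Q1, yes.** For some finitely generated group `G`, finite symmetric generating set `S` and word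
`w`, the law probabilities of the lazy walks satisfy `limsup p_n ≠ liminf p_n`. -/
theorem result : ∃ (G : Type) (_ : Group G) (S : Finset G),
    S.Nonempty ∧ (∀ s ∈ S, s⁻¹ ∈ S) ∧ Subgroup.closure (S : Set G) = ⊤ ∧
    ∃ (d : ℕ) (w : FreeGroup (Fin d)), 1 ≤ d ∧
      limsup (fun n => lawProb S w n) atTop ≠ liminf (fun n => lawProb S w n) atTop := by
  obtain ⟨D, hD⟩ := exists_D
  refine ⟨GD D, inferInstance, SS D, ?_, SS_symm D, SS_closure D, 2, wd, by norm_num, ?_⟩
  · rw [← Finset.card_pos, SS_card]
    norm_num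
  intro h
  apply hD
  have e : (fun n => lawProb (SS D) wd n) = fun n => P D n := funext fun n => lawProb_eq D n
  rw [e] at h
  refine ⟨_, tendsto_of_liminf_eq_limsup h.symm rfl ?_ ?_⟩
  · exact isBoundedUnder_of ⟨1, fun n => (P_bounds D n).2⟩
  · exact isBoundedUnder_of ⟨0, fun n => (P_bounds D n).1⟩

end Pool.Agent.Results.MP_6a29fd_al.LazyNoLimit
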